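import Mathlib
import Pool.Agent.Lib.MP_ae5b4e_an_FA.Str

/-!
# MP_ae5b4e_an, curves with a rotational symmetry: geometry of the tangent lines

`γ` is a closed strictly convex curve which is mapped to itself by the rotation by the angle `a`
about the origin.  For the point of the parameter `t` we put `A = ⟪z, z'⟫`, `B = det (z, z')` and
`V = |z'| ^ 2`.  The tangent line at `t` and the rotated line intersect in the point with the
coordinate `V sin a / (B (1 - cos a) - A sin a)`.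
-/

noncomputable section

namespace Pool.Agent.MP_ae5b4e_an_ROT

open Set Filter Topology Real
open scoped ContDiff
open Pool.Agent.MP_ae5b4e_an_FA Pool.Agent.MP_ae5b4e_an_FA.StrictCurve

variable (γ : StrictCurve)

/-- The rotation by the angle `a` maps the point of the parameter `t` to the point of the
parameter `s`. -/
def To (a t s : ℝ) : Prop :=
  γ.x s = cos a * γ.x t - sin a * γ.y t ∧ γ.y s = sin a * γ.x t + cos a * γ.y t

/-- The rotation by the angle `a` maps the curve to itself. -/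
def Inv (a : ℝ) : Prop := ∀ t, ∃ s, To γ a t s

def A (t : ℝ) : ℝ := γ.x t * deriv γ.x t + γ.y t * deriv γ.y t

def B (t : ℝ) : ℝ := γ.x t * deriv γ.y t - γ.y t * deriv γ.x t

def V (t : ℝ) : ℝ := deriv γ.x t ^ 2 + deriv γ.y t ^ 2

/-- the coordinate of the intersection with the rotated line -/
def w (a t : ℝ) : ℝ := V γ t * sin a / (B γ t * (1 - cos a) - A γ t * sin a)

variable {γ}

lemma To.comp {a b t s r : ℝ} (h : To γ a t s) (h' : To γ b s r) : To γ (a + b) t r := by
  obtain ⟨h1, h2⟩ := h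
  obtain ⟨h3, h4⟩ := h'
  constructor
  · rw [h3, h1, h2, cos_add, sin_add]
    ring
  · rw [h4, h1, h2, cos_add, sin_add]
    ring

lemma Inv.add {a b : ℝ} (h : Inv γ a) (h' : Inv γ b) : Inv γ (a + b) := by
  intro t
  obtain ⟨s, hs⟩ := h t
  obtain ⟨r, hr⟩ := h' s
  exact ⟨r, hs.comp hr⟩

lemma To.congr {a b t s : ℝ} (h : To γ a t s) (h1 : cos a = cos b) (h2 : sin a = sin b) :
    To γ b t s := by
  unfold To at *
  rwa [← h1, ← h2]

lemma Inv.congr {a b : ℝ} (h : Inv γ a) (h1 : cos a = cos b) (h2 : sin a = sin b) : Inv γ b := by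
  intro t
  obtain ⟨s, hs⟩ := h t
  exact ⟨s, hs.congr h1 h2⟩

lemma Inv.nsmul {a : ℝ} (h : Inv γ a) (n : ℕ) : Inv γ (n * a) := by
  induction n with
  | zero => exact fun t => ⟨t, by simp [To]⟩
  | succ n ih =>
    have := ih.add h
    have e : ((n + 1 : ℕ) : ℝ) * a = n * a + a := by
      push_cast
      ring
    rwa [e]

lemma Inv.neg {k : ℕ} (hk : 0 < k) {a : ℝ} (ha : k * a = 2 * π) (h : Inv γ a) (j : ℕ) :
    Inv γ (-(j * a)) := by
  have h1 := h.nsmul (j * (k - 1))
  refine h1.congr ?_ ?_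
  · have e : ((j * (k - 1) : ℕ) : ℝ) * a = -(j * a) + j * (2 * π) := by
      rw [Nat.cast_mul, Nat.cast_sub (by omega : 1 ≤ k), Nat.cast_one, ← ha]
      ring
    rw [e, cos_add_nat_mul_two_pi]
  · have e : ((j * (k - 1) : ℕ) : ℝ) * a = -(j * a) + j * (2 * π) := by
      rw [Nat.cast_mul, Nat.cast_sub (by omega : 1 ≤ k), Nat.cast_one, ← ha]
      ring
    rw [e, sin_add_nat_mul_two_pi]

/-! ## Periodicity -/

lemma x_add (t : ℝ) (n : ℤ) : γ.x (t + n * γ.T) = γ.x t := by
  have h : Function.Periodic γ.x γ.T := γ.per_x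
  exact h.int_mul n t

lemma y_add (t : ℝ) (n : ℤ) : γ.y (t + n * γ.T) = γ.y t := by
  have h : Function.Periodic γ.y γ.T := γ.per_y
  exact h.int_mul n t

lemma dx_add (t : ℝ) (n : ℤ) : deriv γ.x (t + n * γ.T) = deriv γ.x t := by
  have h : γ.x = fun t => γ.x (t + n * γ.T) := funext fun t => (x_add t n).symm
  conv_rhs => rw [h]
  rw [deriv_comp_add_const]

lemma dy_add (t : ℝ) (n : ℤ) : deriv γ.y (t + n * γ.T) = deriv γ.y t := by
  have h : γ.y = fun t => γ.y (t + n * γ.T) := funext fun t => (y_add t n).symm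
  conv_rhs => rw [h]
  rw [deriv_comp_add_const]

/-- representatives of the parameters -/
lemma exists_rep (t s : ℝ) : ∃ n : ℤ, t ≤ s + n * γ.T ∧ s + n * γ.T < t + γ.T := by
  obtain ⟨n, hn, -⟩ := existsUnique_add_zsmul_mem_Ico γ.T_pos s t
  refine ⟨n, ?_⟩
  rw [zsmul_eq_mul] at hn
  exact ⟨hn.1, hn.2⟩

lemma support_nonneg (s r : ℝ) :
    0 ≤ deriv γ.x s * (γ.y r - γ.y s) - deriv γ.y s * (γ.x r - γ.x s) := by
  obtain ⟨n, h1, h2⟩ := exists_rep (γ := γ) s r
  rw [← x_add r n, ← y_add r n]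
  rcases h1.eq_or_lt with h | h
  · rw [← h]
    simp
  · exact (γ.convex s _ h h2).le

lemma inj {t s : ℝ} (hx : γ.x s = γ.x t) (hy : γ.y s = γ.y t) : ∃ n : ℤ, s = t + n * γ.T := by
  obtain ⟨n, h1, h2⟩ := exists_rep (γ := γ) t s
  rcases h1.eq_or_lt with h | h
  · refine ⟨-n, ?_⟩
    push_cast
    linarith
  · have := γ.convex t _ h h2
    rw [x_add, y_add, hx, hy] at this
    simp at this

lemma V_pos (t : ℝ) : 0 < V γ t := dir_ne t

/-- the tangent line at the rotated point -/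
lemma tangent {a t s : ℝ} (hI : Inv γ a) (h : To γ a t s) : ∃ μ : ℝ, 0 < μ ∧
    deriv γ.x s = μ * (cos a * deriv γ.x t - sin a * deriv γ.y t) ∧
    deriv γ.y s = μ * (sin a * deriv γ.x t + cos a * deriv γ.y t) := by
  set X := cos a * deriv γ.x t - sin a * deriv γ.y t with hX
  set Y := sin a * deriv γ.x t + cos a * deriv γ.y t with hY
  have hcs : cos a ^ 2 + sin a ^ 2 = 1 := by rw [add_comm]; exact sin_sq_add_cos_sq a
  -- the support function of the rotated curve
  set G : ℝ → ℝ := fun r => deriv γ.x s * ((sin a * γ.x r + cos a * γ.y r) - γ.y s) -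
    deriv γ.y s * ((cos a * γ.x r - sin a * γ.y r) - γ.x s) with hG
  have h0 : ∀ r, 0 ≤ G r := by
    intro r
    obtain ⟨q, hq1, hq2⟩ := hI r
    have := support_nonneg (γ := γ) s q
    rw [hq1, hq2] at this
    exact this
  have h1 : G t = 0 := by
    simp only [hG]
    rw [h.1, h.2]
    ring
  have h2 : HasDerivAt G (deriv γ.x s * (sin a * deriv γ.x t + cos a * deriv γ.y t) -
      deriv γ.y s * (cos a * deriv γ.x t - sin a * deriv γ.y t)) t := by
    have hx := hdx (γ := γ) t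
    have hy := hdy (γ := γ) t
    exact ((((hx.const_mul (sin a)).add (hy.const_mul (cos a))).sub_const _).const_mul _).sub
      ((((hx.const_mul (cos a)).sub (hy.const_mul (sin a))).sub_const _).const_mul _)
  have h3 : deriv γ.x s * Y - deriv γ.y s * X = 0 := by
    have hmin : IsLocalMin G t := Eventually.of_forall fun r => by rw [h1]; exact h0 r
    exact hmin.hasDerivAt_eq_zero h2
  have hVt := V_pos (γ := γ) t
  have hXY : X ^ 2 + Y ^ 2 = V γ t := by
    have e : X ^ 2 + Y ^ 2 = (cos a ^ 2 + sin a ^ 2) * V γ t := by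
      rw [hX, hY]
      unfold V
      ring
    rw [e, hcs, one_mul]
  set μ := (deriv γ.x s * X + deriv γ.y s * Y) / V γ t with hμ
  have hμV : μ * V γ t = deriv γ.x s * X + deriv γ.y s * Y := by
    rw [hμ, div_mul_cancel₀ _ hVt.ne']
  have e1 : deriv γ.x s = μ * X := by
    apply mul_right_cancel₀ hVt.ne'
    rw [mul_right_comm, hμV, ← hXY]
    linear_combination Y * h3
  have e2 : deriv γ.y s = μ * Y := by
    apply mul_right_cancel₀ hVt.ne'
    rw [mul_right_comm, hμV, ← hXY]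
    linear_combination (-X) * h3
  refine ⟨μ, ?_, e1, e2⟩
  have hT := γ.T_pos
  have k1 := γ.convex t (t + γ.T / 2) (by linarith) (by linarith)
  have k2 := h0 (t + γ.T / 2)
  have k3 : G (t + γ.T / 2) = μ * (deriv γ.x t * (γ.y (t + γ.T / 2) - γ.y t) -
      deriv γ.y t * (γ.x (t + γ.T / 2) - γ.x t)) := by
    simp only [hG]
    rw [e1, e2, h.1, h.2, hX, hY]
    linear_combination (μ * (deriv γ.x t * (γ.y (t + γ.T / 2) - γ.y t) -
      deriv γ.y t * (γ.x (t + γ.T / 2) - γ.x t))) * hcs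
  rw [k3] at k2
  have k4 : 0 ≤ μ := by
    by_contra hneg
    push Not at hneg
    have := mul_neg_of_neg_of_pos hneg k1
    linarith
  rcases k4.eq_or_lt with k5 | k5
  · exfalso
    have k6 := V_pos (γ := γ) s
    unfold V at k6
    rw [e1, e2, ← k5] at k6
    simp at k6
  · exact k5

/-- the rotation by an angle different from `0` and `π` has no fixed parameter -/
lemma To.ne {a t s : ℝ} (ha : sin a ≠ 0) (hI : Inv γ a) (h : To γ a t s) (n : ℤ) :
    s ≠ t + n * γ.T := by
  intro e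
  obtain ⟨μ, hμ, h1, h2⟩ := tangent hI h
  rw [e, dx_add] at h1
  rw [e, dy_add] at h2
  have hV := V_pos (γ := γ) t
  have k : μ * (sin a * V γ t) = 0 := by
    unfold V
    linear_combination deriv γ.y t * h1 - deriv γ.x t * h2
  rcases mul_eq_zero.1 k with k | k
  · exact hμ.ne' k
  · exact (mul_ne_zero ha hV.ne') k

/-- the rotated point after the given one -/
lemma exists_next {a : ℝ} (ha : sin a ≠ 0) (hI : Inv γ a) (t : ℝ) :
    ∃ s, t < s ∧ s < t + γ.T ∧ To γ a t s := by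
  obtain ⟨s, hs⟩ := hI t
  obtain ⟨n, h1, h2⟩ := exists_rep (γ := γ) t s
  have h3 : To γ a t (s + n * γ.T) := by
    unfold To
    rw [x_add, y_add]
    exact hs
  refine ⟨_, lt_of_le_of_ne h1 ?_, h2, h3⟩
  intro e
  have := h3.ne ha hI 0
  apply this
  push_cast
  linarith

section formulas

variable {a t s : ℝ} (hI : Inv γ a) (h : To γ a t s)

include hI h

lemma scale : ∃ μ : ℝ, 0 < μ ∧ A γ s = μ * A γ t ∧ B γ s = μ * B γ t ∧ V γ s = μ ^ 2 * V γ t ∧
    γ.W t s = μ * (V γ t * sin a) ∧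
    γ.N t s = μ * (B γ t * (1 - cos a) - A γ t * sin a) ∧
    γ.N s t = B γ t * (1 - cos a) + A γ t * sin a ∧
    deriv γ.x s = μ * (cos a * deriv γ.x t - sin a * deriv γ.y t) ∧
    deriv γ.y s = μ * (sin a * deriv γ.x t + cos a * deriv γ.y t) := by
  obtain ⟨μ, hμ, e1, e2⟩ := tangent hI h
  obtain ⟨h1, h2⟩ := h
  have hcs : cos a ^ 2 + sin a ^ 2 = 1 := by rw [add_comm]; exact sin_sq_add_cos_sq a
  refine ⟨μ, hμ, ?_, ?_, ?_, ?_, ?_, ?_, e1, e2⟩
  · unfold A
    rw [e1, e2, h1, h2]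
    linear_combination (μ * (γ.x t * deriv γ.x t + γ.y t * deriv γ.y t)) * hcs
  · unfold B
    rw [e1, e2, h1, h2]
    linear_combination (μ * (γ.x t * deriv γ.y t - γ.y t * deriv γ.x t)) * hcs
  · unfold V
    rw [e1, e2]
    linear_combination (μ ^ 2 * (deriv γ.x t ^ 2 + deriv γ.y t ^ 2)) * hcs
  · unfold V W
    rw [e1, e2]
    ring
  · unfold N A B
    rw [e1, e2, h1, h2]
    linear_combination (μ * (γ.x t * deriv γ.y t - γ.y t * deriv γ.x t)) * hcs
  · unfold N A B
    rw [h1, h2]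
    ring

end formulas

lemma B_pos {a : ℝ} (ha : sin a ≠ 0) (hI : Inv γ a) (t : ℝ) : 0 < B γ t := by
  obtain ⟨s, h1, h2, h3⟩ := exists_next ha hI t
  obtain ⟨μ, hμ, -, -, -, -, e1, e2, -, -⟩ := scale hI h3
  have k1 := N_right (γ := γ) h1 h2
  have k2 := N_left (γ := γ) h1 h2
  rw [e1] at k1
  rw [e2] at k2
  have k3 := (mul_pos_iff_of_pos_left hμ).1 k1
  have hc : cos a < 1 := by
    refine lt_of_le_of_ne (cos_le_one a) fun e => ha ?_
    have := sin_sq_add_cos_sq a
    rw [e] at this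
    nlinarith [sq_nonneg (sin a)]
  have k4 : 0 < 2 * B γ t * (1 - cos a) := by linarith
  have k5 := (mul_pos_iff_of_pos_right (by linarith : 0 < 1 - cos a)).1 k4
  linarith

lemma den_pos {a : ℝ} (ha : sin a ≠ 0) (hI : Inv γ a) (t : ℝ) :
    0 < B γ t * (1 - cos a) - A γ t * sin a ∧ 0 < B γ t * (1 - cos a) + A γ t * sin a := by
  obtain ⟨s, h1, h2, h3⟩ := exists_next ha hI t
  obtain ⟨μ, hμ, -, -, -, -, e1, e2, -, -⟩ := scale hI h3
  have k1 := N_right (γ := γ) h1 h2
  have k2 := N_left (γ := γ) h1 h2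
  rw [e1] at k1
  rw [e2] at k2
  exact ⟨(mul_pos_iff_of_pos_left hμ).1 k1, k2⟩

/-- the coordinate of the intersection of the tangent lines, on the first one -/
lemma v_right {a t s : ℝ} (hI : Inv γ a) (h : To γ a t s) : γ.v t s = w γ a t := by
  obtain ⟨μ, hμ, -, -, -, e1, e2, -, -, -⟩ := scale hI h
  unfold v w
  rw [e1, e2, mul_div_mul_left _ _ hμ.ne']

/-- the coordinate of the intersection of the tangent lines, on the second one -/
lemma v_left {a t s : ℝ} (hI : Inv γ a) (h : To γ a t s) : γ.v s t = w γ (-a) s := by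
  obtain ⟨μ, hμ, eA, eB, eV, e1, -, e3, -, -⟩ := scale hI h
  have e4 : γ.W s t = -γ.W t s := by
    unfold W
    ring
  unfold v w
  rw [e4, e1, e3, eA, eB, eV, sin_neg, cos_neg]
  have e5 : μ * B γ t * (1 - cos a) - μ * A γ t * -sin a =
      μ * (B γ t * (1 - cos a) + A γ t * sin a) := by ring
  have e6 : μ ^ 2 * V γ t * -sin a = μ * (-(μ * (V γ t * sin a))) := by ring
  rw [e5, e6, mul_div_mul_left _ _ hμ.ne']

lemma w_scale {b t s μ : ℝ} (hμ : 0 < μ) (hA : A γ s = μ * A γ t) (hB : B γ s = μ * B γ t)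
    (hV : V γ s = μ ^ 2 * V γ t) : w γ b s = μ * w γ b t := by
  unfold w
  rw [hA, hB, hV]
  have e5 : μ * B γ t * (1 - cos b) - μ * A γ t * sin b =
      μ * (B γ t * (1 - cos b) - A γ t * sin b) := by ring
  have e6 : μ ^ 2 * V γ t * sin b = μ * (μ * (V γ t * sin b)) := by ring
  rw [e5, e6, mul_div_mul_left _ _ hμ.ne', mul_div_assoc]

end Pool.Agent.MP_ae5b4e_an_ROT
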