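import Mathlib
import Pool.Agent.Lib.MP_ae5b4e_an_ROT.Base

/-!
# MP_ae5b4e_an, curves with a rotational symmetry: the cyclic argument

Let `c (t)` be the label of the leaf through the intersection of the tangent line at `t` with the
rotated line.  If the field of the involutions is invariant under the rotation, and if its value is
larger at `t` than the value `w a + w (-a)` for which the involution exchanges the intersections
with the two rotated lines, then the label increases at each step of the rotation.  After `k` steps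
we are back.
-/

noncomputable section

namespace Pool.Agent.MP_ae5b4e_an_ROT

open Set Filter Topology Real
open scoped ContDiff
open Pool.Agent.MP_ae5b4e_an_FA Pool.Agent.MP_ae5b4e_an_FA.StrictCurve

variable {γ : StrictCurve}

/-- The value of the field `κ`, an affine coordinate of the second fixed point, is invariant under
the rotation by the angle `a`. -/
def Law (γ : StrictCurve) (κ : ℝ → ℝ) (a : ℝ) : Prop :=
  ∀ t s μ : ℝ, To γ a t s → deriv γ.x s = μ * (cos a * deriv γ.x t - sin a * deriv γ.y t) →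
    deriv γ.y s = μ * (sin a * deriv γ.x t + cos a * deriv γ.y t) → κ s = μ * κ t

lemma mu_unique {a t s μ ν : ℝ}
    (h1 : deriv γ.x s = μ * (cos a * deriv γ.x t - sin a * deriv γ.y t))
    (h2 : deriv γ.y s = μ * (sin a * deriv γ.x t + cos a * deriv γ.y t))
    (h3 : deriv γ.x s = ν * (cos a * deriv γ.x t - sin a * deriv γ.y t))
    (h4 : deriv γ.y s = ν * (sin a * deriv γ.x t + cos a * deriv γ.y t)) : μ = ν := by
  have hcs : cos a ^ 2 + sin a ^ 2 = 1 := by rw [add_comm]; exact sin_sq_add_cos_sq a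
  have hV := V_pos (γ := γ) t
  have e : (μ - ν) * V γ t = 0 := by
    have e1 : (μ - ν) * (cos a * deriv γ.x t - sin a * deriv γ.y t) = 0 := by linarith
    have e2 : (μ - ν) * (sin a * deriv γ.x t + cos a * deriv γ.y t) = 0 := by linarith
    unfold V
    linear_combination (cos a * deriv γ.x t - sin a * deriv γ.y t) * e1 +
      (sin a * deriv γ.x t + cos a * deriv γ.y t) * e2 -
      ((μ - ν) * (deriv γ.x t ^ 2 + deriv γ.y t ^ 2)) * hcs
  rcases mul_eq_zero.1 e with e | e
  · linarith
  · exact absurd e hV.ne'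

lemma To.shift {a t s : ℝ} (n : ℤ) : To γ a t (s + n * γ.T) ↔ To γ a t s := by
  unfold To
  rw [x_add, y_add]

/-- the law is invariant under the double rotation -/
lemma Law.double {κ : ℝ → ℝ} (hκ : ∀ t, ∀ n : ℤ, κ (t + n * γ.T) = κ t) {a : ℝ} (hI : Inv γ a)
    (h : Law γ κ a) : Law γ κ (a + a) := by
  intro t r μ hr e1 e2
  obtain ⟨s, hs⟩ := hI t
  obtain ⟨q, hq⟩ := hI s
  obtain ⟨μ₁, -, f1, f2⟩ := tangent hI hs
  obtain ⟨μ₂, -, g1, g2⟩ := tangent hI hq
  have hq' := hs.comp hq
  have hx : γ.x r = γ.x q := by rw [hr.1, hq'.1]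
  have hy : γ.y r = γ.y q := by rw [hr.2, hq'.2]
  obtain ⟨n, hn⟩ := inj hx hy
  have dx : deriv γ.x r = deriv γ.x q := by rw [hn, dx_add]
  have dy : deriv γ.y r = deriv γ.y q := by rw [hn, dy_add]
  have hκr : κ r = κ q := by rw [hn, hκ]
  have k1 := h t s μ₁ hs f1 f2
  have k2 := h s q μ₂ hq g1 g2
  have e3 : deriv γ.x r =
      (μ₂ * μ₁) * (cos (a + a) * deriv γ.x t - sin (a + a) * deriv γ.y t) := by
    rw [dx, g1, f1, f2, cos_add, sin_add]
    ring
  have e4 : deriv γ.y r =
      (μ₂ * μ₁) * (sin (a + a) * deriv γ.x t + cos (a + a) * deriv γ.y t) := by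
    rw [dy, g2, f1, f2, cos_add, sin_add]
    ring
  rw [mu_unique e1 e2 e3 e4, hκr, k2, k1]
  ring

section cyc

variable {U : ℝ → ℝ → ℝ} {κ : ℝ → ℝ}
  (hper : ∀ c ∈ Ioo (0:ℝ) 1, ∀ t, U c (t + γ.T) = U c t)
  (hsimple : ∀ c ∈ Ioo (0:ℝ) 1, ∀ t t', γ.pt t (U c t) = γ.pt t' (U c t') →
    ∃ n : ℤ, t' = t + n * γ.T)
  (hmono : ∀ c ∈ Ioo (0:ℝ) 1, ∀ c' ∈ Ioo (0:ℝ) 1, c < c' → ∀ t, U c' t < U c t)
  (hproj : ∀ c ∈ Ioo (0:ℝ) 1, ∀ t u v, u ≠ v → γ.pt t u ∈ γ.leaf U c →
    γ.pt t v ∈ γ.leaf U c → u + v = κ t)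

include hper in
lemma U_add {c : ℝ} (hc : c ∈ Ioo (0:ℝ) 1) (t : ℝ) (n : ℤ) : U c (t + n * γ.T) = U c t := by
  have h : Function.Periodic (U c) γ.T := hper c hc
  exact h.int_mul n t

/-- the defect of the law -/
def er (γ : StrictCurve) (κ : ℝ → ℝ) (a t : ℝ) : ℝ := κ t - w γ a t - w γ (-a) t

lemma er_scale {a t s μ : ℝ} (hμ : 0 < μ) (hA : A γ s = μ * A γ t) (hB : B γ s = μ * B γ t)
    (hV : V γ s = μ ^ 2 * V γ t) (hκ : κ s = μ * κ t) : er γ κ a s = μ * er γ κ a t := by
  unfold er
  rw [w_scale hμ hA hB hV, w_scale hμ hA hB hV, hκ]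
  ring

include hsimple hproj in
/-- one step -/
lemma step {a : ℝ} (hI : Inv γ a) {c : ℝ → ℝ}
    (hc : ∀ t, c t ∈ Ioo (0:ℝ) 1 ∧ U (c t) t = w γ a t) {t s : ℝ} (h1 : t < s)
    (h2 : s < t + γ.T) (h : To γ a t s) : U (c t) s = U (c s) s + er γ κ a s := by
  have k := key (hsimple _ (hc t).1) (hproj _ (hc t).1) h1 h2
    ((hc t).2.trans (v_right hI h).symm)
  rw [v_left hI h] at k
  rw [(hc s).2]
  unfold er
  linarith

include hper hsimple hmono hproj in
theorem cyclic {a : ℝ} (ha : sin a ≠ 0) (hI : Inv γ a) (hL : Law γ κ a) {k : ℕ} (hk : 0 < k)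
    (hka : k * a = 2 * π ∨ k * a = 2 * (2 * π)) {c : ℝ → ℝ}
    (hc : ∀ t, c t ∈ Ioo (0:ℝ) 1 ∧ U (c t) t = w γ a t) (t : ℝ) : er γ κ a t = 0 := by
  choose S hS1 hS2 hS3 using exists_next (γ := γ) ha hI
  have hsc : ∀ t, ∃ μ : ℝ, 0 < μ ∧ er γ κ a (S t) = μ * er γ κ a t := by
    intro t
    obtain ⟨μ, hμ, eA, eB, eV, -, -, -, e1, e2⟩ := scale hI (hS3 t)
    exact ⟨μ, hμ, er_scale hμ eA eB eV (hL t (S t) μ (hS3 t) e1 e2)⟩
  have hst := fun t => step hsimple hproj hI hc (hS1 t) (hS2 t) (hS3 t)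
  have hcl : To γ 0 t (S^[k] t) := by
    have h1 : ∀ n : ℕ, To γ (n * a) t (S^[n] t) := by
      intro n
      induction n with
      | zero => simp [To]
      | succ n ih =>
        rw [Function.iterate_succ_apply']
        have := ih.comp (hS3 (S^[n] t))
        have e : ((n + 1 : ℕ) : ℝ) * a = n * a + a := by
          push_cast
          ring
        rwa [e]
    refine (h1 k).congr ?_ ?_
    · rcases hka with h | h
      · rw [h, cos_two_pi, cos_zero]
      · rw [h, show (2:ℝ) * (2 * π) = 2 * π + 2 * π by ring, cos_add_two_pi, cos_two_pi, cos_zero]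
    · rcases hka with h | h
      · rw [h, sin_two_pi, sin_zero]
      · rw [h, show (2:ℝ) * (2 * π) = 2 * π + 2 * π by ring, sin_add_two_pi, sin_two_pi, sin_zero]
  have hback : c (S^[k] t) = c t := by
    obtain ⟨h1, h2⟩ := hcl
    rw [cos_zero, sin_zero, one_mul, zero_mul, sub_zero] at h1
    rw [cos_zero, sin_zero, one_mul, zero_mul, zero_add] at h2
    obtain ⟨n, hn⟩ := inj h1 h2
    have e1 : w γ a (S^[k] t) = w γ a t := by
      rw [hn]
      unfold w A B V
      rw [x_add, y_add, dx_add, dy_add]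
    have e2 : U (c (S^[k] t)) t = U (c t) t := by
      rw [(hc t).2, ← e1, ← (hc (S^[k] t)).2]
      conv_rhs => rw [hn]
      rw [U_add hper (hc _).1]
      rw [← hn]
    rcases lt_trichotomy (c (S^[k] t)) (c t) with h | h | h
    · exact absurd e2 (hmono _ (hc _).1 _ (hc _).1 h t).ne'
    · exact h
    · exact absurd e2 (hmono _ (hc _).1 _ (hc _).1 h t).ne
  rcases lt_trichotomy (er γ κ a t) 0 with h | h | h
  · exfalso
    have h1 : ∀ n : ℕ, er γ κ a (S^[n] t) < 0 := by
      intro n
      induction n with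
      | zero => exact h
      | succ n ih =>
        rw [Function.iterate_succ_apply']
        obtain ⟨μ, hμ, e⟩ := hsc (S^[n] t)
        rw [e]
        exact mul_neg_of_pos_of_neg hμ ih
    have h2 : ∀ n : ℕ, c (S^[n + 1] t) < c (S^[n] t) := by
      intro n
      by_contra hcon
      push Not at hcon
      have k1 := hst (S^[n] t)
      rw [← Function.iterate_succ_apply' S n t] at k1
      have k2 := h1 (n + 1)
      rcases hcon.eq_or_lt with e | e
      · rw [e] at k1
        linarith
      · have := hmono _ (hc _).1 _ (hc _).1 e (S^[n + 1] t)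
        linarith
    have h3 : ∀ n : ℕ, c (S^[n + 1] t) < c t := by
      intro n
      induction n with
      | zero => exact h2 0
      | succ n ih => exact (h2 (n + 1)).trans ih
    have h4 := h3 (k - 1)
    rw [Nat.sub_add_cancel hk, hback] at h4
    exact lt_irrefl _ h4
  · exact h
  · exfalso
    have h1 : ∀ n : ℕ, 0 < er γ κ a (S^[n] t) := by
      intro n
      induction n with
      | zero => exact h
      | succ n ih =>
        rw [Function.iterate_succ_apply']
        obtain ⟨μ, hμ, e⟩ := hsc (S^[n] t)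
        rw [e]
        exact mul_pos hμ ih
    have h2 : ∀ n : ℕ, c (S^[n] t) < c (S^[n + 1] t) := by
      intro n
      by_contra hcon
      push Not at hcon
      have k1 := hst (S^[n] t)
      rw [← Function.iterate_succ_apply' S n t] at k1
      have k2 := h1 (n + 1)
      rcases hcon.eq_or_lt with e | e
      · rw [← e] at k1
        linarith
      · have := hmono _ (hc _).1 _ (hc _).1 e (S^[n + 1] t)
        linarith
    have h3 : ∀ n : ℕ, c t < c (S^[n + 1] t) := by
      intro n
      induction n with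
      | zero => exact h2 0
      | succ n ih => exact ih.trans (h2 (n + 1))
    have h4 := h3 (k - 1)
    rw [Nat.sub_add_cancel hk, hback] at h4
    exact lt_irrefl _ h4

end cyc

end Pool.Agent.MP_ae5b4e_an_ROT
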