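import Mathlib
import Pool.Agent.Lib.MP_ae5b4e_an_ROT.Cyc

/-!
# MP_ae5b4e_an, curves with a rotational symmetry: two leaves determine the law

For the angles `a` and `2 a` the law gives `κ = 2 V A sin ² / ((B (1 - cos)) ² - (A sin) ²)`; the two
values agree only if `A = 0`.
-/

noncomputable section

namespace Pool.Agent.MP_ae5b4e_an_ROT

open Set Filter Topology Real
open scoped ContDiff
open Pool.Agent.MP_ae5b4e_an_FA Pool.Agent.MP_ae5b4e_an_FA.StrictCurve

variable {γ : StrictCurve}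

lemma algebra_two {A B V c s : ℝ} (hV : 0 < V) (hB : 0 < B) (hc : 0 < c) (hs : 0 < s)
    (hcs : c ^ 2 + s ^ 2 = 1)
    (h1 : 0 < B * (1 - c) - A * s) (h2 : 0 < B * (1 - c) + A * s)
    (h3 : 0 < B * (2 * s ^ 2) - A * (2 * s * c)) (h4 : 0 < B * (2 * s ^ 2) + A * (2 * s * c))
    (h : V * s / (B * (1 - c) - A * s) - V * s / (B * (1 - c) + A * s) =
      V * (2 * s * c) / (B * (2 * s ^ 2) - A * (2 * s * c)) -
      V * (2 * s * c) / (B * (2 * s ^ 2) + A * (2 * s * c))) : A = 0 := by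
  rw [div_sub_div _ _ h1.ne' h2.ne', div_sub_div _ _ h3.ne' h4.ne',
    div_eq_div_iff (mul_pos h1 h2).ne' (mul_pos h3 h4).ne'] at h
  have hc1 : 0 < 1 - c := by nlinarith [sq_nonneg s, mul_pos hs hs]
  have e : A * (8 * V * s ^ 2 * B ^ 2 * ((1 - c) ^ 2 * (1 + 2 * c))) = 0 := by
    have hs4 : s ^ 4 = (1 - c ^ 2) ^ 2 := by
      have : s ^ 2 = 1 - c ^ 2 := by linarith
      rw [← this]
      ring
    linear_combination h - 8 * V * A * s ^ 2 * B ^ 2 * hs4
  rcases mul_eq_zero.1 e with e | e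
  · exact e
  · exfalso
    have : 0 < 8 * V * s ^ 2 * B ^ 2 * ((1 - c) ^ 2 * (1 + 2 * c)) := by positivity
    exact this.ne' e

lemma w_two {a t : ℝ} : w γ (a + a) t = V γ t * (2 * sin a * cos a) /
    (B γ t * (2 * sin a ^ 2) - A γ t * (2 * sin a * cos a)) := by
  unfold w
  have e1 : sin (a + a) = 2 * sin a * cos a := by rw [sin_add]; ring
  have e2 : 1 - cos (a + a) = 2 * sin a ^ 2 := by
    rw [cos_add]
    have := sin_sq_add_cos_sq a
    linear_combination (-1) * this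
  rw [e1, e2]

lemma w_two_neg {a t : ℝ} : w γ (-(a + a)) t = -(V γ t * (2 * sin a * cos a) /
    (B γ t * (2 * sin a ^ 2) + A γ t * (2 * sin a * cos a))) := by
  unfold w
  have e1 : sin (-(a + a)) = -(2 * sin a * cos a) := by rw [sin_neg, sin_add]; ring
  have e2 : 1 - cos (-(a + a)) = 2 * sin a ^ 2 := by
    rw [cos_neg, cos_add]
    have := sin_sq_add_cos_sq a
    linear_combination (-1) * this
  rw [e1, e2, mul_neg, mul_neg, sub_neg_eq_add, neg_div]

lemma w_neg {a t : ℝ} : w γ (-a) t = -(V γ t * sin a /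
    (B γ t * (1 - cos a) + A γ t * sin a)) := by
  unfold w
  rw [sin_neg, cos_neg, mul_neg, mul_neg, sub_neg_eq_add, neg_div]

/-- Two leaves. -/
theorem A_eq_zero {a : ℝ} (hs : 0 < sin a) (hc : 0 < cos a) (hI : Inv γ a) {κ : ℝ → ℝ} {t : ℝ}
    (h1 : er γ κ a t = 0) (h2 : er γ κ (a + a) t = 0) : A γ t = 0 ∧ κ t = 0 := by
  have hs2 : sin (a + a) ≠ 0 := by
    rw [sin_add]
    positivity
  have hI2 := hI.add hI
  obtain ⟨d1, d2⟩ := den_pos hs.ne' hI t
  obtain ⟨d3, d4⟩ := den_pos hs2 hI2 t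
  have e1 : sin (a + a) = 2 * sin a * cos a := by rw [sin_add]; ring
  have e2 : 1 - cos (a + a) = 2 * sin a ^ 2 := by
    rw [cos_add]
    have := sin_sq_add_cos_sq a
    linear_combination (-1) * this
  rw [e1, e2] at d3 d4
  have hA : A γ t = 0 := by
    refine algebra_two (V_pos (γ := γ) t) (B_pos hs.ne' hI t) hc hs ?_ d1 d2 d3 d4 ?_
    · rw [add_comm]
      exact sin_sq_add_cos_sq a
    · unfold er at h1 h2
      rw [w_two, w_two_neg] at h2
      rw [w_neg] at h1
      unfold w at h1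
      linarith
  refine ⟨hA, ?_⟩
  unfold er at h1
  rw [w_neg] at h1
  unfold w at h1
  rw [hA, zero_mul, sub_zero, add_zero] at h1
  linarith

/-- the first leaf is closer to the curve -/
lemma w_lt {a : ℝ} (hs : 0 < sin a) (hc : 0 < cos a) (hI : Inv γ a) (t : ℝ) :
    w γ (a + a) t < w γ a t := by
  have hs2 : sin (a + a) ≠ 0 := by
    rw [sin_add]
    positivity
  obtain ⟨d1, d2⟩ := den_pos hs.ne' hI t
  obtain ⟨d3, d4⟩ := den_pos hs2 (hI.add hI) t
  have e1 : sin (a + a) = 2 * sin a * cos a := by rw [sin_add]; ring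
  have e2 : 1 - cos (a + a) = 2 * sin a ^ 2 := by
    rw [cos_add]
    have := sin_sq_add_cos_sq a
    linear_combination (-1) * this
  rw [e1, e2] at d3 d4
  rw [w_two]
  unfold w
  rw [div_lt_div_iff₀ d3 d1]
  have hV := V_pos (γ := γ) t
  have hB := B_pos hs.ne' hI t
  have hc1 : 0 < 1 - cos a := by nlinarith [sin_sq_add_cos_sq a, mul_pos hs hs]
  have e3 : V γ t * sin a * (B γ t * (2 * sin a ^ 2) - A γ t * (2 * sin a * cos a)) -
      V γ t * (2 * sin a * cos a) * (B γ t * (1 - cos a) - A γ t * sin a) =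
      2 * V γ t * sin a * B γ t * (1 - cos a) := by
    have := sin_sq_add_cos_sq a
    linear_combination (2 * V γ t * sin a * B γ t) * this
  have e4 : 0 < 2 * V γ t * sin a * B γ t * (1 - cos a) := by positivity
  linarith

end Pool.Agent.MP_ae5b4e_an_ROT
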