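import Mathlib
import Pool.Agent.Lib.MP_ae5b4e_an_ROT.Two

/-!
# MP_ae5b4e_an, curves with a rotational symmetry: the circle

If `A = 0` everywhere then the curve is a circle about the origin, `x = r cos ψ`, `y = r sin ψ` with
a homeomorphism `ψ` of the line, `ψ (t + T) = ψ (t) + 2 π`.  A family of closed curves around the
circle for which `κ = 0` consists of concentric circles.
-/

noncomputable section

namespace Pool.Agent.MP_ae5b4e_an_ROT

open Set Filter Topology Real
open scoped ContDiff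
open Pool.Agent.MP_ae5b4e_an_FA Pool.Agent.MP_ae5b4e_an_FA.StrictCurve

variable {γ : StrictCurve}

/-- the radius is constant -/
lemma radius (hA : ∀ t, A γ t = 0) (t : ℝ) : γ.x t ^ 2 + γ.y t ^ 2 = γ.x 0 ^ 2 + γ.y 0 ^ 2 := by
  have hd : ∀ t, HasDerivAt (fun t => γ.x t ^ 2 + γ.y t ^ 2) 0 t := by
    intro t
    refine (((hdx (γ := γ) t).pow 2).add ((hdy (γ := γ) t).pow 2)).congr_deriv ?_
    have := hA t
    unfold A at this
    push_cast
    linear_combination 2 * this
  exact is_const_of_deriv_eq_zero (fun t => (hd t).differentiableAt) (fun t => (hd t).deriv) t 0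

/-- the polar angle -/
structure Polar (γ : StrictCurve) (r : ℝ) (ψ : ℝ → ℝ) : Prop where
  r_pos : 0 < r
  mono : StrictMono ψ
  cont : Continuous ψ
  add : ∀ t, ψ (t + γ.T) = ψ t + 2 * π
  x : ∀ t, γ.x t = r * cos (ψ t)
  y : ∀ t, γ.y t = r * sin (ψ t)

lemma exists_polar (hA : ∀ t, A γ t = 0) (hB : ∀ t, 0 < B γ t) : ∃ r ψ, Polar γ r ψ := by
  set r := √(γ.x 0 ^ 2 + γ.y 0 ^ 2) with hr
  have hrad := radius hA
  have h0 : 0 < γ.x 0 ^ 2 + γ.y 0 ^ 2 := by
    by_contra hcon
    have hx : γ.x 0 = 0 := by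
      have : γ.x 0 ^ 2 ≤ 0 := by nlinarith [sq_nonneg (γ.x 0), sq_nonneg (γ.y 0)]
      exact pow_eq_zero_iff (two_ne_zero) |>.1 (le_antisymm this (sq_nonneg _))
    have hy : γ.y 0 = 0 := by
      have : γ.y 0 ^ 2 ≤ 0 := by nlinarith [sq_nonneg (γ.x 0), sq_nonneg (γ.y 0)]
      exact pow_eq_zero_iff (two_ne_zero) |>.1 (le_antisymm this (sq_nonneg _))
    have := hB 0
    unfold B at this
    rw [hx, hy] at this
    simp at this
  have hr0 : 0 < r := Real.sqrt_pos.2 h0
  have hr2 : r ^ 2 = γ.x 0 ^ 2 + γ.y 0 ^ 2 := Real.sq_sqrt h0.le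
  -- the angle of the point of the parameter 0
  obtain ⟨β, hβ1, hβ2⟩ : ∃ β, γ.x 0 = r * cos β ∧ γ.y 0 = r * sin β := by
    set z : ℂ := ⟨γ.x 0, γ.y 0⟩ with hz
    have hn : ‖z‖ = r := by
      rw [hr, Complex.norm_def, Complex.normSq_apply]
      congr 1
      simp only [hz]
      ring
    have hz0 : z ≠ 0 := by
      intro e
      rw [e, norm_zero] at hn
      exact hr0.ne hn
    refine ⟨z.arg, ?_, ?_⟩
    · rw [← hn, Complex.norm_mul_cos_arg]
    · rw [← hn, Complex.norm_mul_sin_arg]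
  have hcB : Continuous (B γ) := by
    have h1 : Continuous (deriv γ.x) := (contDiff_infty_iff_deriv.1 γ.smooth_x).2.continuous
    have h2 : Continuous (deriv γ.y) := (contDiff_infty_iff_deriv.1 γ.smooth_y).2.continuous
    have h3 := γ.smooth_x.continuous
    have h4 := γ.smooth_y.continuous
    unfold B
    fun_prop
  set ψ : ℝ → ℝ := fun t => β + ∫ τ in (0)..t, B γ τ / r ^ 2 with hψ
  have hcB' : Continuous fun τ => B γ τ / r ^ 2 := hcB.div_const _
  have hdψ : ∀ t, HasDerivAt ψ (B γ t / r ^ 2) t := fun t =>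
    (intervalIntegral.integral_hasDerivAt_right (hcB'.intervalIntegrable _ _)
      (hcB'.stronglyMeasurableAtFilter _ _) hcB'.continuousAt).const_add β
  have hcψ : Continuous ψ := continuous_iff_continuousAt.2 fun t => (hdψ t).continuousAt
  have hmψ : StrictMono ψ := by
    refine strictMono_of_deriv_pos fun t => ?_
    rw [(hdψ t).deriv]
    have := hB t
    positivity
  have hψ0 : ψ 0 = β := by simp [hψ]
  -- the derivatives of the coordinates
  have hx' : ∀ t, deriv γ.x t = -(B γ t / r ^ 2) * γ.y t := by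
    intro t
    have e1 := hA t
    have e2 : r ^ 2 = γ.x t ^ 2 + γ.y t ^ 2 := by rw [hr2, hrad t]
    have e3 : r ^ 2 ≠ 0 := (pow_pos hr0 2).ne'
    field_simp
    rw [e2]
    unfold A at e1
    unfold B
    linear_combination γ.x t * e1
  have hy' : ∀ t, deriv γ.y t = (B γ t / r ^ 2) * γ.x t := by
    intro t
    have e1 := hA t
    have e2 : r ^ 2 = γ.x t ^ 2 + γ.y t ^ 2 := by rw [hr2, hrad t]
    have e3 : r ^ 2 ≠ 0 := (pow_pos hr0 2).ne'
    field_simp
    rw [e2]
    unfold A at e1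
    unfold B
    linear_combination γ.y t * e1
  have hP : ∀ t, γ.x t * cos (ψ t) + γ.y t * sin (ψ t) = r := by
    intro t
    have hd : ∀ t, HasDerivAt (fun t => γ.x t * cos (ψ t) + γ.y t * sin (ψ t)) 0 t := by
      intro t
      refine (((hdx (γ := γ) t).mul (hdψ t).cos).add
        ((hdy (γ := γ) t).mul (hdψ t).sin)).congr_deriv ?_
      rw [hx' t, hy' t]
      ring
    have := is_const_of_deriv_eq_zero (fun t => (hd t).differentiableAt)
      (fun t => (hd t).deriv) t 0
    rw [this, hψ0, hβ1, hβ2]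
    have := sin_sq_add_cos_sq β
    linear_combination r * this
  have hQ : ∀ t, γ.y t * cos (ψ t) - γ.x t * sin (ψ t) = 0 := by
    intro t
    have hd : ∀ t, HasDerivAt (fun t => γ.y t * cos (ψ t) - γ.x t * sin (ψ t)) 0 t := by
      intro t
      refine (((hdy (γ := γ) t).mul (hdψ t).cos).sub
        ((hdx (γ := γ) t).mul (hdψ t).sin)).congr_deriv ?_
      rw [hx' t, hy' t]
      ring
    have := is_const_of_deriv_eq_zero (fun t => (hd t).differentiableAt)
      (fun t => (hd t).deriv) t 0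
    rw [this, hψ0, hβ1, hβ2]
    ring
  have hX : ∀ t, γ.x t = r * cos (ψ t) := by
    intro t
    have := sin_sq_add_cos_sq (ψ t)
    linear_combination cos (ψ t) * hP t - sin (ψ t) * hQ t - γ.x t * this
  have hY : ∀ t, γ.y t = r * sin (ψ t) := by
    intro t
    have := sin_sq_add_cos_sq (ψ t)
    linear_combination sin (ψ t) * hP t + cos (ψ t) * hQ t - γ.y t * this
  refine ⟨r, ψ, hr0, hmψ, hcψ, ?_, hX, hY⟩
  intro t
  -- one turn
  have hT := γ.T_pos
  have h1 : ∀ t, ∃ n : ℤ, ψ (t + γ.T) - ψ t = n * (2 * π) := by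
    intro t
    have e1 := hX (t + γ.T)
    have e2 := hY (t + γ.T)
    rw [γ.per_x, hX t] at e1
    rw [γ.per_y, hY t] at e2
    have e3 := mul_left_cancel₀ hr0.ne' e1
    have e4 := mul_left_cancel₀ hr0.ne' e2
    have e5 : cos (ψ (t + γ.T) - ψ t) = 1 := by
      rw [cos_sub, ← e3, ← e4]
      have := sin_sq_add_cos_sq (ψ t)
      linear_combination this
    obtain ⟨n, hn⟩ := (cos_eq_one_iff _).1 e5
    exact ⟨n, hn.symm⟩
  obtain ⟨n, hn⟩ := h1 t
  have h2 : 0 < ψ (t + γ.T) - ψ t := by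
    have := hmψ (show t < t + γ.T by linarith)
    linarith
  have hn0 : 0 < n := by
    rw [hn] at h2
    have := (mul_pos_iff_of_pos_right (by positivity : (0:ℝ) < 2 * π)).1 h2
    exact_mod_cast this
  have hn1 : n < 2 := by
    by_contra hcon
    push Not at hcon
    have hn2 : (2:ℝ) ≤ n := by exact_mod_cast hcon
    have h3 : ψ t + 2 * π ∈ Icc (ψ t) (ψ (t + γ.T)) := by
      refine ⟨by linarith [pi_pos], ?_⟩
      nlinarith [pi_pos]
    obtain ⟨s, ⟨hs1, hs2⟩, hs3⟩ := intermediate_value_Icc (by linarith : t ≤ t + γ.T)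
      hcψ.continuousOn h3
    have hs4 : t < s := by
      rcases hs1.eq_or_lt with e | e
      · rw [← e] at hs3
        linarith [pi_pos]
      · exact e
    have hs5 : s < t + γ.T := by
      rcases hs2.eq_or_lt with e | e
      · rw [e] at hs3
        rw [hs3] at hn
        nlinarith [pi_pos]
      · exact e
    have k := γ.convex t s hs4 hs5
    rw [hX s, hY s, hs3, cos_add_two_pi, sin_add_two_pi, ← hX t, ← hY t] at k
    simp at k
  have hn3 : n = 1 := by omega
  rw [hn3] at hn
  push_cast at hn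
  linarith

end Pool.Agent.MP_ae5b4e_an_ROT
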