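import Mathlib
import Pool.Agent.Lib.MP_ae5b4e_an_FA.StrDef

/-!
# MP_ae5b4e_an, curves with a rotational symmetry: definitions
-/

noncomputable section

namespace Pool.Agent.MP_ae5b4e_an_ROT

open Set Real

/-- The circle of the radius `ρ` about the origin of the affine chart. -/
def circle (ρ : ℝ) : Set (Projectivization ℝ (Fin 3 → ℝ)) :=
  {P | P.rep 0 ^ 2 + P.rep 1 ^ 2 = ρ ^ 2 * P.rep 2 ^ 2}

/-- The rotation by the angle `a` about the origin of the affine chart, in homogeneous
coordinates. -/
def rotL (a : ℝ) : (Fin 3 → ℝ) →ₗ[ℝ] (Fin 3 → ℝ) where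
  toFun v := ![cos a * v 0 - sin a * v 1, sin a * v 0 + cos a * v 1, v 2]
  map_add' v v' := by
    ext i
    fin_cases i
    · show cos a * (v 0 + v' 0) - sin a * (v 1 + v' 1) =
        (cos a * v 0 - sin a * v 1) + (cos a * v' 0 - sin a * v' 1)
      ring
    · show sin a * (v 0 + v' 0) + cos a * (v 1 + v' 1) =
        (sin a * v 0 + cos a * v 1) + (sin a * v' 0 + cos a * v' 1)
      ring
    · rfl
  map_smul' r v := by
    ext i
    fin_cases i
    · show cos a * (r * v 0) - sin a * (r * v 1) = r * (cos a * v 0 - sin a * v 1)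
      ring
    · show sin a * (r * v 0) + cos a * (r * v 1) = r * (sin a * v 0 + cos a * v 1)
      ring
    · rfl

lemma rotL_injective (a : ℝ) : Function.Injective (rotL a) := by
  intro v v' h
  have hcs : cos a ^ 2 + sin a ^ 2 = 1 := by rw [add_comm]; exact sin_sq_add_cos_sq a
  have h0 : cos a * v 0 - sin a * v 1 = cos a * v' 0 - sin a * v' 1 := congrFun h 0
  have h1 : sin a * v 0 + cos a * v 1 = sin a * v' 0 + cos a * v' 1 := congrFun h 1
  have h2 : v 2 = v' 2 := congrFun h 2
  ext i
  fin_cases i
  · show v 0 = v' 0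
    linear_combination cos a * h0 + sin a * h1 - (v 0 - v' 0) * hcs
  · show v 1 = v' 1
    linear_combination cos a * h1 - sin a * h0 - (v 1 - v' 1) * hcs
  · exact h2

/-- The rotation by the angle `a` about the origin of the affine chart, as a projective map. -/
def rot (a : ℝ) : Projectivization ℝ (Fin 3 → ℝ) → Projectivization ℝ (Fin 3 → ℝ) :=
  Projectivization.map (rotL a) (rotL_injective a)

end Pool.Agent.MP_ae5b4e_an_ROT
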