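import Mathlib
import Pool.Agent.Lib.MP_ae5b4e_an_ROT.Defs
import Pool.Agent.Lib.MP_ae5b4e_an_ROT.Circ

/-!
# MP_ae5b4e_an, curves with a rotational symmetry: the leaves around a circle

A family of closed curves around a circle for which `κ = 0` consists of concentric circles: the
angle of the step is constant along the orbits, hence constant if it takes an irrational value.
-/

noncomputable section

namespace Pool.Agent.MP_ae5b4e_an_ROT

open Set Filter Topology Real
open scoped ContDiff
open Pool.Agent.MP_ae5b4e_an_FA Pool.Agent.MP_ae5b4e_an_FA.StrictCurve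

variable {γ : StrictCurve} {r : ℝ} {ψ : ℝ → ℝ}

/-! ## The circle -/

/-- the speed -/
def qq (γ : StrictCurve) (r t : ℝ) : ℝ := B γ t / r

namespace Polar

variable (h : Polar γ r ψ) (hA : ∀ t, A γ t = 0) (hB : ∀ t, 0 < B γ t)

include h

lemma rad (t : ℝ) : γ.x t ^ 2 + γ.y t ^ 2 = r ^ 2 := by
  rw [h.x, h.y]
  have := sin_sq_add_cos_sq (ψ t)
  linear_combination r ^ 2 * this

include hB in
lemma qq_pos (t : ℝ) : 0 < qq γ r t := div_pos (hB t) h.r_pos

include hA in
lemma dx (t : ℝ) : deriv γ.x t = -(qq γ r t * sin (ψ t)) := by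
  have e1 := hA t
  have e2 := h.rad t
  have hr := h.r_pos.ne'
  have e3 : r * sin (ψ t) = γ.y t := (h.y t).symm
  have e4 : deriv γ.x t * r ^ 2 = -(qq γ r t * sin (ψ t)) * r ^ 2 := by
    have e5 : qq γ r t * r = B γ t := by
      unfold qq
      field_simp
    have e6 : -(qq γ r t * sin (ψ t)) * r ^ 2 = -(B γ t * γ.y t) := by
      rw [← e5, ← e3]
      ring
    rw [e6, ← e2]
    unfold A at e1
    unfold B
    linear_combination γ.x t * e1
  exact mul_right_cancel₀ (pow_ne_zero 2 hr) e4

include hA in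
lemma dy (t : ℝ) : deriv γ.y t = qq γ r t * cos (ψ t) := by
  have e1 := hA t
  have e2 := h.rad t
  have hr := h.r_pos.ne'
  have e3 : r * cos (ψ t) = γ.x t := (h.x t).symm
  have e4 : deriv γ.y t * r ^ 2 = (qq γ r t * cos (ψ t)) * r ^ 2 := by
    have e5 : qq γ r t * r = B γ t := by
      unfold qq
      field_simp
    have e6 : (qq γ r t * cos (ψ t)) * r ^ 2 = B γ t * γ.x t := by
      rw [← e5, ← e3]
      ring
    rw [e6, ← e2]
    unfold A at e1
    unfold B
    linear_combination γ.y t * e1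
  exact mul_right_cancel₀ (pow_ne_zero 2 hr) e4

include hA hB in
lemma v_eq {t s : ℝ} : γ.v t s =
    qq γ r t * sin (ψ s - ψ t) / (r * (1 - cos (ψ s - ψ t))) := by
  have hq := h.qq_pos hB s
  have hW : γ.W t s = qq γ r s * (qq γ r t * sin (ψ s - ψ t)) := by
    unfold W
    rw [h.dx hA, h.dy hA, h.dx hA, h.dy hA, sin_sub]
    ring
  have hN : γ.N t s = qq γ r s * (r * (1 - cos (ψ s - ψ t))) := by
    unfold N
    rw [h.dx hA, h.dy hA, h.x, h.y, h.x, h.y, cos_sub]
    have := sin_sq_add_cos_sq (ψ s)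
    linear_combination (qq γ r s * r) * this
  unfold v
  rw [hW, hN, mul_div_mul_left _ _ hq.ne']

lemma add_int (t : ℝ) (n : ℤ) : ψ (t + n * γ.T) = ψ t + n * (2 * π) := by
  have h1 : Function.Periodic (fun t => ψ t - t * (2 * π / γ.T)) γ.T := by
    intro t
    have := γ.T_pos.ne'
    simp only [h.add]
    field_simp
    ring
  have h2 : ψ (t + n * γ.T) - (t + n * γ.T) * (2 * π / γ.T) = ψ t - t * (2 * π / γ.T) :=
    h1.int_mul n t
  have h3 := γ.T_pos.ne'
  have h4 : n * γ.T * (2 * π / γ.T) = n * (2 * π) := by field_simp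
  linarith

lemma surj : Function.Surjective ψ := by
  intro y
  obtain ⟨n, hn⟩ := exists_int_gt ((y - ψ 0) / (2 * π))
  obtain ⟨m, hm⟩ := exists_int_lt ((y - ψ 0) / (2 * π))
  rw [div_lt_iff₀ (by positivity)] at hn
  rw [lt_div_iff₀ (by positivity)] at hm
  have h1 := h.add_int 0 n
  have h2 := h.add_int 0 m
  have h3 : y ∈ Icc (ψ (0 + m * γ.T)) (ψ (0 + n * γ.T)) := by
    rw [h1, h2]
    exact ⟨by linarith, by linarith⟩
  have h4 : (0:ℝ) + m * γ.T ≤ 0 + n * γ.T := by
    by_contra hcon
    push Not at hcon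
    have := h.mono hcon
    linarith [h3.1, h3.2]
  obtain ⟨t, -, ht⟩ := intermediate_value_Icc h4 h.cont.continuousOn h3
  exact ⟨t, ht⟩

/-- the polar angle as a homeomorphism -/
def homeo : ℝ ≃ₜ ℝ := (h.mono.orderIsoOfSurjective ψ h.surj).toHomeomorph

lemma homeo_apply (t : ℝ) : h.homeo t = ψ t := rfl

lemma homeo_symm (φ : ℝ) : ψ (h.homeo.symm φ) = φ := h.homeo.apply_symm_apply φ

lemma symm_eq (t : ℝ) : h.homeo.symm (ψ t) = t := h.homeo.symm_apply_apply t

end Polar

/-! ## Functions which are constant along their own rotations -/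

private theorem dense_aux {f : ℝ → ℝ} (hf : Continuous f) (hper : Function.Periodic f 1)
    {α t₀ : ℝ} (hα : Irrational α) (h : ∀ n : ℕ, f (t₀ + n * α) = f t₀) (t : ℝ) :
    f t = f t₀ := by
  have : Fact ((0:ℝ) < 1) := ⟨one_pos⟩
  have hd : DenseRange (fun n : ℤ => n • (α : AddCircle (1:ℝ))) :=
    AddCircle.denseRange_zsmul_coe_iff.2 (by rwa [div_one])
  have hd' : DenseRange (fun n : ℕ => n • (α : AddCircle (1:ℝ))) := denseRange_zsmul_iff_nsmul.1 hd
  have hF : Continuous hper.lift := by
    refine (QuotientAddGroup.isQuotientMap_mk (N := AddSubgroup.zmultiples (1:ℝ))).continuous_iff.2 ?_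
    exact hf
  have h1 : Continuous fun z : AddCircle (1:ℝ) => hper.lift ((t₀ : AddCircle (1:ℝ)) + z) :=
    hF.comp (continuous_const_add (t₀ : AddCircle (1:ℝ)))
  have h2 : (fun z : AddCircle (1:ℝ) => hper.lift ((t₀ : AddCircle (1:ℝ)) + z)) =
      fun _ => f t₀ := by
    refine hd'.equalizer h1 continuous_const ?_
    funext n
    have e : (t₀ : AddCircle (1:ℝ)) + n • (α : AddCircle (1:ℝ)) =
        ((t₀ + n * α : ℝ) : AddCircle (1:ℝ)) := by
      rw [AddCircle.coe_add, ← nsmul_eq_mul, AddCircle.coe_nsmul]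
    show hper.lift ((t₀ : AddCircle (1:ℝ)) + n • (α : AddCircle (1:ℝ))) = f t₀
    rw [e, hper.lift_coe]
    exact h n
  have h3 : hper.lift ((t₀ : AddCircle (1:ℝ)) + ((t - t₀ : ℝ) : AddCircle (1:ℝ))) = f t₀ :=
    congrFun h2 ((t - t₀ : ℝ) : AddCircle (1:ℝ))
  rw [← AddCircle.coe_add, hper.lift_coe] at h3
  rw [← h3]
  congr 1
  ring

/-- the angle of the step with the value `l`, in turns -/
def gth (l : ℝ) : ℝ := 1 / 2 - arctan l / π

theorem gth_mem (l : ℝ) : 0 < gth l ∧ gth l < 1 := by
  have h1 := arctan_lt_pi_div_two l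
  have h2 := neg_pi_div_two_lt_arctan l
  have hp := pi_pos
  unfold gth
  constructor
  · have : arctan l / π < 1 / 2 := by
      rw [div_lt_iff₀ hp]
      linarith
    linarith
  · have : -(1 / 2) < arctan l / π := by
      rw [lt_div_iff₀ hp]
      linarith
    linarith

theorem gth_val (l : ℝ) : sin (2 * π * gth l) / (1 - cos (2 * π * gth l)) = l := by
  have hp := pi_pos
  have e : 2 * π * gth l = π - 2 * arctan l := by
    unfold gth
    field_simp
  have hc := cos_arctan_pos l
  have ht : sin (arctan l) = l * cos (arctan l) := by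
    have := tan_arctan l
    rw [tan_eq_sin_div_cos, div_eq_iff hc.ne'] at this
    exact this
  rw [e, sin_pi_sub, cos_pi_sub, sin_two_mul, cos_two_mul, ht]
  have hcc := hc.ne'
  field_simp
  ring

private theorem gth_inj : Function.Injective gth := by
  intro a b hab
  rw [← gth_val a, ← gth_val b, hab]

private theorem gth_cont : Continuous gth := by
  unfold gth
  exact continuous_const.sub (continuous_arctan.div_const _)

private theorem const_aux {f : ℝ → ℝ} (hf : Continuous f) (hper : Function.Periodic f 1)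
    (h : ∀ t, f (t + gth (f t)) = f t) (a b : ℝ) : f a = f b := by
  by_contra hab
  have h1 : gth (f a) ≠ gth (f b) := fun e => hab (gth_inj e)
  obtain ⟨α, hα, hα'⟩ : ∃ α, Irrational α ∧ α ∈ uIcc (gth (f a)) (gth (f b)) := by
    obtain ⟨α, hα, h2, h3⟩ := exists_irrational_btwn (min_lt_max.2 h1)
    exact ⟨α, hα, h2.le, h3.le⟩
  obtain ⟨t₀, -, ht₀⟩ := intermediate_value_uIcc (f := fun t => gth (f t))
    ((gth_cont.comp hf).continuousOn) hα'
  simp only at ht₀
  have h4 : ∀ n : ℕ, f (t₀ + n * α) = f t₀ := by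
    intro n
    induction n with
    | zero => simp
    | succ n ih =>
      have k := h (t₀ + n * α)
      rw [ih, ht₀] at k
      rw [← k]
      congr 1
      push_cast
      ring
  exact hab ((dense_aux hf hper hα h4 a).trans (dense_aux hf hper hα h4 b).symm)

/-! ## The leaves -/

section leaves

variable (h : Polar γ r ψ) (hA : ∀ t, A γ t = 0) (hB : ∀ t, 0 < B γ t)
  {U : ℝ → ℝ → ℝ}
  (hcont : ContinuousOn (fun p : ℝ × ℝ => U p.1 p.2) (Ioo 0 1 ×ˢ univ))
  (hper : ∀ c ∈ Ioo (0:ℝ) 1, ∀ t, U c (t + γ.T) = U c t)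
  (hsimple : ∀ c ∈ Ioo (0:ℝ) 1, ∀ t t', γ.pt t (U c t) = γ.pt t' (U c t') →
    ∃ n : ℤ, t' = t + n * γ.T)
  (hlim : ∀ t, Tendsto (fun c => U c t) (𝓝[>] 0) atTop)
  (hproj : ∀ c ∈ Ioo (0:ℝ) 1, ∀ t u v, u ≠ v → γ.pt t u ∈ γ.leaf U c →
    γ.pt t v ∈ γ.leaf U c → u + v = 0)

/-- the invariant coordinate of the leaf -/
def ll (γ : StrictCurve) (r : ℝ) (U : ℝ → ℝ → ℝ) (c t : ℝ) : ℝ := U c t * r / qq γ r t

lemma cont_B : Continuous (B γ) := by
  have h1 : Continuous (deriv γ.x) := (contDiff_infty_iff_deriv.1 γ.smooth_x).2.continuous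
  have h2 : Continuous (deriv γ.y) := (contDiff_infty_iff_deriv.1 γ.smooth_y).2.continuous
  have h3 := γ.smooth_x.continuous
  have h4 := γ.smooth_y.continuous
  unfold B
  fun_prop

include hcont in
lemma cont_slice {c : ℝ} (hc : c ∈ Ioo (0:ℝ) 1) : Continuous (U c) :=
  hcont.comp_continuous (f := fun t : ℝ => ((c, t) : ℝ × ℝ)) (by fun_prop)
    fun _ => ⟨hc, mem_univ _⟩

include h hA hB hcont hper hsimple hproj in
lemma ll_const {c : ℝ} (hc : c ∈ Ioo (0:ℝ) 1) (t s : ℝ) : ll γ r U c t = ll γ r U c s := by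
  have hr := h.r_pos
  have hll : Continuous (ll γ r U c) := by
    unfold ll
    refine ((cont_slice hcont hc).mul_const r).div₀ ?_ fun t => (h.qq_pos hB t).ne'
    exact (cont_B (γ := γ)).div_const _
  set f : ℝ → ℝ := fun τ => ll γ r U c (h.homeo.symm (2 * π * τ)) with hf
  have hfc : Continuous f := hll.comp (h.homeo.symm.continuous.comp (by fun_prop))
  have hlper : ∀ t, ll γ r U c (t + γ.T) = ll γ r U c t := by
    intro t
    have e1 : qq γ r (t + γ.T) = qq γ r t := by
      have k1 := x_add (γ := γ) t 1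
      have k2 := y_add (γ := γ) t 1
      have k3 := dx_add (γ := γ) t 1
      have k4 := dy_add (γ := γ) t 1
      simp only [Int.cast_one, one_mul] at k1 k2 k3 k4
      unfold qq B
      rw [k1, k2, k3, k4]
    unfold ll
    rw [hper c hc, e1]
  have hfper : Function.Periodic f 1 := by
    intro τ
    simp only [hf]
    have e : 2 * π * (τ + 1) = ψ (h.homeo.symm (2 * π * τ) + γ.T) := by
      rw [h.add, h.homeo_symm]
      ring
    rw [e, h.symm_eq, hlper]
  have hfl : ∀ τ, f (τ + gth (f τ)) = f τ := by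
    intro τ
    set t := h.homeo.symm (2 * π * τ) with ht
    have hψt : ψ t = 2 * π * τ := h.homeo_symm _
    have hft : f τ = ll γ r U c t := rfl
    rw [hft]
    set l := ll γ r U c t with hl
    obtain ⟨g1, g2⟩ := gth_mem l
    set s := h.homeo.symm (2 * π * (τ + gth l)) with hs
    have hψs : ψ s = 2 * π * (τ + gth l) := h.homeo_symm _
    have hd : ψ s - ψ t = 2 * π * gth l := by
      rw [hψs, hψt]
      ring
    show ll γ r U c s = l
    have hp := pi_pos
    have hts : t < s := by
      apply h.mono.lt_iff_lt.1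
      have : 0 < 2 * π * gth l := by positivity
      linarith
    have hst : s < t + γ.T := by
      apply h.mono.lt_iff_lt.1
      rw [h.add]
      have : 2 * π * gth l < 2 * π * 1 := mul_lt_mul_of_pos_left g2 (by positivity)
      linarith
    have hqt := h.qq_pos hB t
    have hqs := h.qq_pos hB s
    have hv : U c t = γ.v t s := by
      rw [h.v_eq hA hB, hd]
      have k := gth_val l
      have k1 : qq γ r t * sin (2 * π * gth l) / (r * (1 - cos (2 * π * gth l))) =
          qq γ r t / r * (sin (2 * π * gth l) / (1 - cos (2 * π * gth l))) := by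
        rw [mul_div_mul_comm]
      rw [k1, k, hl]
      unfold ll
      field_simp
    have k2 := key (hsimple c hc) (hproj c hc) hts hst hv
    have k3 : γ.v s t = -(qq γ r s / r * l) := by
      rw [h.v_eq hA hB, show ψ t - ψ s = -(2 * π * gth l) by linarith, sin_neg, cos_neg]
      have k := gth_val l
      have k1 : qq γ r s * -sin (2 * π * gth l) / (r * (1 - cos (2 * π * gth l))) =
          -(qq γ r s / r * (sin (2 * π * gth l) / (1 - cos (2 * π * gth l)))) := by
        rw [← mul_div_mul_comm, mul_neg, neg_div]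
      rw [k1, k]
    have k4 : U c s = qq γ r s / r * l := by
      rw [k3] at k2
      linarith
    unfold ll
    rw [k4]
    field_simp
  have k := const_aux hfc hfper hfl (ψ t / (2 * π)) (ψ s / (2 * π))
  simp only [hf] at k
  have hp := pi_pos
  rw [mul_div_cancel₀ _ (by positivity), mul_div_cancel₀ _ (by positivity), h.symm_eq,
    h.symm_eq] at k
  exact k

end leaves

end Pool.Agent.MP_ae5b4e_an_ROT
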