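import Mathlib
import Pool.Agent.Lib.MP_ae5b4e_an_ROT.Leaf

/-!
# MP_ae5b4e_an, curves with a rotational symmetry: end of the proof
-/

noncomputable section

namespace Pool.Agent.MP_ae5b4e_an_ROT

open Set Filter Topology Real
open scoped ContDiff
open Pool.Agent.MP_ae5b4e_an_hopf (range_eq_circ circ)
open Pool.Agent.MP_ae5b4e_an_FA Pool.Agent.MP_ae5b4e_an_FA.StrictCurve

variable {γ : StrictCurve} {r : ℝ} {ψ : ℝ → ℝ}

lemma range_eq_circle (hsurj : Function.Surjective ψ) {ρ β : ℝ} (hρ : 0 < ρ) {μ : ℝ → ℝ}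
    (hμ : ∀ t, μ t ≠ 0) {v : ℝ → Fin 3 → ℝ} (hv : ∀ t, v t ≠ 0)
    (h0 : ∀ t, v t 0 = μ t * (ρ * cos (ψ t + β))) (h1 : ∀ t, v t 1 = μ t * (ρ * sin (ψ t + β)))
    (h2 : ∀ t, v t 2 = μ t) :
    (Set.range fun t => Projectivization.mk ℝ (v t) (hv t)) = circle ρ := by
  have key : (Set.range fun t => Projectivization.mk ℝ (v t) (hv t)) =
      circ (LinearEquiv.refl ℝ (Fin 3 → ℝ)) ρ := by
    refine range_eq_circ hv ?_
    intro P hP
    show _ ↔ P 0 ^ 2 + P 1 ^ 2 = ρ ^ 2 * P 2 ^ 2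
    constructor
    · rintro ⟨t, a, rfl⟩
      simp only [Pi.smul_apply, smul_eq_mul]
      rw [h0, h1, h2]
      have := sin_sq_add_cos_sq (ψ t + β)
      linear_combination (a ^ 2 * μ t ^ 2 * ρ ^ 2) * this
    · intro hP2
      have hz : P 2 ≠ 0 := by
        intro e
        rw [e] at hP2
        have k0 : P 0 = 0 := by
          have : P 0 ^ 2 ≤ 0 := by nlinarith [sq_nonneg (P 0), sq_nonneg (P 1)]
          exact pow_eq_zero_iff (two_ne_zero) |>.1 (le_antisymm this (sq_nonneg _))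
        have k1 : P 1 = 0 := by
          have : P 1 ^ 2 ≤ 0 := by nlinarith [sq_nonneg (P 0), sq_nonneg (P 1)]
          exact pow_eq_zero_iff (two_ne_zero) |>.1 (le_antisymm this (sq_nonneg _))
        apply hP
        funext i
        fin_cases i
        · exact k0
        · exact k1
        · exact e
      set z : ℂ := ⟨P 0 / P 2, P 1 / P 2⟩ with hzd
      have hn : ‖z‖ = ρ := by
        rw [Complex.norm_def, Complex.normSq_apply]
        have e : z.re * z.re + z.im * z.im = ρ ^ 2 := by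
          simp only [hzd]
          field_simp
          linarith
        rw [e, Real.sqrt_sq hρ.le]
      obtain ⟨t, ht⟩ := hsurj (z.arg - β)
      have e0 : ρ * cos (ψ t + β) = P 0 / P 2 := by
        rw [ht, sub_add_cancel, ← hn, Complex.norm_mul_cos_arg]
      have e1 : ρ * sin (ψ t + β) = P 1 / P 2 := by
        rw [ht, sub_add_cancel, ← hn, Complex.norm_mul_sin_arg]
      refine ⟨t, P 2 / μ t, ?_⟩
      have hm := hμ t
      funext i
      fin_cases i
      · show P 0 = P 2 / μ t * v t 0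
        rw [h0, e0]
        field_simp
      · show P 1 = P 2 / μ t * v t 1
        rw [h1, e1]
        field_simp
      · show P 2 = P 2 / μ t * v t 2
        rw [h2]
        field_simp
  exact key

lemma Polar.trace_eq (h : Polar γ r ψ) : γ.trace = circle r := by
  unfold trace
  refine range_eq_circle h.surj (β := 0) h.r_pos (μ := fun _ => 1) (fun _ => one_ne_zero) _ ?_ ?_ ?_
  · intro t
    show γ.x t = _
    rw [h.x, add_zero, one_mul]
  · intro t
    show γ.y t = _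
    rw [h.y, add_zero, one_mul]
  · intro t
    rfl

section leaves

variable (h : Polar γ r ψ) (hA : ∀ t, A γ t = 0) (hB : ∀ t, 0 < B γ t)
  {U : ℝ → ℝ → ℝ}
  (hcont : ContinuousOn (fun p : ℝ × ℝ => U p.1 p.2) (Ioo 0 1 ×ˢ univ))
  (hper : ∀ c ∈ Ioo (0:ℝ) 1, ∀ t, U c (t + γ.T) = U c t)
  (hsimple : ∀ c ∈ Ioo (0:ℝ) 1, ∀ t t', γ.pt t (U c t) = γ.pt t' (U c t') →
    ∃ n : ℤ, t' = t + n * γ.T)
  (hlim : ∀ t, Tendsto (fun c => U c t) (𝓝[>] 0) atTop)
  (hproj : ∀ c ∈ Ioo (0:ℝ) 1, ∀ t u v, u ≠ v → γ.pt t u ∈ γ.leaf U c →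
    γ.pt t v ∈ γ.leaf U c → u + v = 0)

include hcont in
lemma cont_slice' (t : ℝ) : ContinuousOn (fun c => U c t) (Ioo 0 1) :=
  hcont.comp (f := fun c : ℝ => ((c, t) : ℝ × ℝ)) (by fun_prop) fun _ hc => ⟨hc, mem_univ _⟩

include hcont hlim in
/-- all larger values are attained -/
lemma exists_label' {c : ℝ} (hc : c ∈ Ioo (0:ℝ) 1) {t y : ℝ} (hy : U c t ≤ y) :
    ∃ d ∈ Ioo (0:ℝ) 1, U d t = y := by
  obtain ⟨c', hU, hc'1, hc'2⟩ :=
    (((hlim t).eventually_gt_atTop y).and (Ioo_mem_nhdsGT hc.1)).exists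
  have hsub : Icc c' c ⊆ Ioo 0 1 := fun z hz => ⟨hc'1.trans_le hz.1, hz.2.trans_lt hc.2⟩
  obtain ⟨d, hd, hd'⟩ := intermediate_value_Icc' hc'2.le ((cont_slice' hcont t).mono hsub)
    (show y ∈ Icc (U c t) (U c' t) from ⟨hy, hU.le⟩)
  exact ⟨d, hsub hd, hd'⟩

include h hA hB hcont hper hsimple hlim hproj in
lemma ll_pos {c : ℝ} (hc : c ∈ Ioo (0:ℝ) 1) (t : ℝ) : 0 < ll γ r U c t := by
  by_contra hcon
  push Not at hcon
  have hp := pi_pos
  have h1 : U c t ≤ 0 := by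
    by_contra h0
    push Not at h0
    have : 0 < ll γ r U c t := div_pos (mul_pos h0 h.r_pos) (h.qq_pos hB t)
    linarith
  obtain ⟨d, hd, hd0⟩ := exists_label' hcont hlim hc h1
  obtain ⟨s, hs⟩ := h.surj (ψ t + π)
  have h2 : U d s = 0 := by
    have k := ll_const h hA hB hcont hper hsimple hproj hd s t
    unfold ll at k
    rw [hd0, zero_mul, zero_div, div_eq_zero_iff, mul_eq_zero] at k
    rcases k with (k | k) | k
    · exact k
    · exact absurd k h.r_pos.ne'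
    · exact absurd k (h.qq_pos hB s).ne'
  have h3 : γ.pt t (U d t) = γ.pt s (U d s) := by
    rw [hd0, h2]
    unfold pt
    rw [Projectivization.mk_eq_mk_iff']
    have hqs := (h.qq_pos hB s).ne'
    refine ⟨-(qq γ r t / qq γ r s), ?_⟩
    funext i
    fin_cases i
    · show -(qq γ r t / qq γ r s) * (0 * γ.x s + deriv γ.x s) = 0 * γ.x t + deriv γ.x t
      rw [h.dx hA, h.dx hA, hs, sin_add_pi]
      field_simp
      ring
    · show -(qq γ r t / qq γ r s) * (0 * γ.y s + deriv γ.y s) = 0 * γ.y t + deriv γ.y t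
      rw [h.dy hA, h.dy hA, hs, cos_add_pi]
      field_simp
      ring
    · show -(qq γ r t / qq γ r s) * 0 = 0
      ring
  obtain ⟨n, hn⟩ := hsimple d hd t s h3
  rw [hn, h.add_int] at hs
  have h4 : ((n:ℝ) * 2 - 1) * π = 0 := by linarith
  rcases mul_eq_zero.1 h4 with h4 | h4
  · have h5 : ((n * 2 - 1 : ℤ) : ℝ) = 0 := by
      push_cast
      exact h4
    have h6 : n * 2 - 1 = 0 := by exact_mod_cast h5
    omega
  · exact hp.ne' h4

include h hA hB hcont hper hsimple hlim hproj in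
/-- the leaves are concentric circles -/
theorem leaf_circle {c : ℝ} (hc : c ∈ Ioo (0:ℝ) 1) : ∃ ρ, r < ρ ∧ γ.leaf U c = circle ρ := by
  set l := ll γ r U c 0 with hl
  have hl0 : 0 < l := ll_pos h hA hB hcont hper hsimple hlim hproj hc 0
  have hll : ∀ t, ll γ r U c t = l := fun t =>
    ll_const h hA hB hcont hper hsimple hproj hc t 0
  have hr := h.r_pos
  set β := arctan (1 / l) with hβ
  have hcβ : 0 < cos β := cos_arctan_pos _
  have htβ : sin β = 1 / l * cos β := by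
    have := tan_arctan (1 / l)
    rw [tan_eq_sin_div_cos, ← hβ, div_eq_iff hcβ.ne'] at this
    exact this
  have hcβ1 : cos β < 1 := by
    refine lt_of_le_of_ne (cos_le_one β) fun e => ?_
    have k := sin_sq_add_cos_sq β
    rw [htβ, e] at k
    have : 0 < (1 / l * 1) ^ 2 := by positivity
    linarith
  refine ⟨r / cos β, ?_, ?_⟩
  · rw [lt_div_iff₀ hcβ]
    nlinarith
  · unfold leaf pt
    have hU : ∀ t, U c t = l * qq γ r t / r := by
      intro t
      have := (h.qq_pos hB t).ne'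
      rw [← hll t]
      unfold ll
      field_simp
    refine range_eq_circle h.surj (β := β) (by positivity) (μ := fun t => U c t) ?_ _ ?_ ?_ ?_
    · intro t
      show U c t ≠ 0
      rw [hU]
      have := h.qq_pos hB t
      positivity
    · intro t
      show U c t * γ.x t + deriv γ.x t = U c t * (r / cos β * cos (ψ t + β))
      rw [h.dx hA, h.x, cos_add, htβ, hU]
      field_simp
      ring
    · intro t
      show U c t * γ.y t + deriv γ.y t = U c t * (r / cos β * sin (ψ t + β))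
      rw [h.dy hA, h.y, sin_add, htβ, hU]
      field_simp
    · intro t
      rfl

end leaves

/-! ## The theorem -/

/-- Curves with a rotational symmetry. -/
theorem main (γ : StrictCurve) {k : ℕ} (hk : 5 ≤ k) (hI : Inv γ (2 * π / k))
    (U : ℝ → ℝ → ℝ) (κ : ℝ → ℝ) (hκper : ∀ t, ∀ n : ℤ, κ (t + n * γ.T) = κ t)
    (hL : Law γ κ (2 * π / k))
    (hcont : ContinuousOn (fun p : ℝ × ℝ => U p.1 p.2) (Ioo 0 1 ×ˢ univ))
    (hper : ∀ c ∈ Ioo (0:ℝ) 1, ∀ t, U c (t + γ.T) = U c t)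
    (hsimple : ∀ c ∈ Ioo (0:ℝ) 1, ∀ t t', γ.pt t (U c t) = γ.pt t' (U c t') →
      ∃ n : ℤ, t' = t + n * γ.T)
    (hmono : ∀ c ∈ Ioo (0:ℝ) 1, ∀ c' ∈ Ioo (0:ℝ) 1, c < c' → ∀ t, U c' t < U c t)
    (hlim : ∀ t, Tendsto (fun c => U c t) (𝓝[>] 0) atTop)
    (hproj : ∀ c ∈ Ioo (0:ℝ) 1, ∀ t u v, u ≠ v → γ.pt t u ∈ γ.leaf U c →
      γ.pt t v ∈ γ.leaf U c → u + v = κ t)
    (hcov : ∀ t, ∃ c ∈ Ioo (0:ℝ) 1, U c t ≤ w γ (2 * π / k + 2 * π / k) t) :
    ∃ r > 0, γ.trace = circle r ∧ ∀ c ∈ Ioo (0:ℝ) 1, ∃ ρ > r, γ.leaf U c = circle ρ := by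
  set a := 2 * π / k with ha
  have hk0 : (0:ℝ) < k := by
    have : 0 < k := by omega
    exact_mod_cast this
  have hk5 : (5:ℝ) ≤ k := by exact_mod_cast hk
  have hp := pi_pos
  have ha0 : 0 < a := by positivity
  have ha1 : a < π / 2 := by
    rw [ha, div_lt_iff₀ hk0]
    nlinarith
  have hs : 0 < sin a := sin_pos_of_pos_of_lt_pi ha0 (by linarith)
  have hc : 0 < cos a := cos_pos_of_mem_Ioo ⟨by linarith, ha1⟩
  have hs2 : sin (a + a) ≠ 0 := by
    rw [sin_add]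
    positivity
  have hka : k * a = 2 * π := by
    rw [ha]
    field_simp
  have hka2 : k * (a + a) = 2 * (2 * π) := by
    rw [mul_add, hka]
    ring
  have hI2 := hI.add hI
  have hL2 := hL.double hκper hI
  -- the labels
  have hc2 : ∀ t, ∃ c, c ∈ Ioo (0:ℝ) 1 ∧ U c t = w γ (a + a) t := by
    intro t
    obtain ⟨c, hc, hle⟩ := hcov t
    obtain ⟨d, hd, hd'⟩ := exists_label' hcont hlim hc hle
    exact ⟨d, hd, hd'⟩
  have hc1 : ∀ t, ∃ c, c ∈ Ioo (0:ℝ) 1 ∧ U c t = w γ a t := by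
    intro t
    obtain ⟨c, hc', hle⟩ := hcov t
    obtain ⟨d, hd, hd'⟩ := exists_label' hcont hlim hc' (hle.trans (w_lt hs hc hI t).le)
    exact ⟨d, hd, hd'⟩
  choose c₁ hc₁ using hc1
  choose c₂ hc₂ using hc2
  have e1 := cyclic hper hsimple hmono hproj hs.ne' hI hL (by omega : 0 < k) (Or.inl hka) hc₁
  have e2 := cyclic hper hsimple hmono hproj hs2 hI2 hL2 (by omega : 0 < k) (Or.inr hka2) hc₂
  have e3 := fun t => A_eq_zero hs hc hI (e1 t) (e2 t)
  have hA : ∀ t, A γ t = 0 := fun t => (e3 t).1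
  have hκ : ∀ t, κ t = 0 := fun t => (e3 t).2
  have hB := B_pos (γ := γ) hs.ne' hI
  obtain ⟨r, ψ, h⟩ := exists_polar hA hB
  refine ⟨r, h.r_pos, h.trace_eq, fun c hc => ?_⟩
  obtain ⟨ρ, h1, h2⟩ := leaf_circle h hA hB hcont hper hsimple hlim
    (fun c hc t u v huv hu hv => (hproj c hc t u v huv hu hv).trans (hκ t)) hc
  exact ⟨ρ, h1, h2⟩

end Pool.Agent.MP_ae5b4e_an_ROT
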