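import Mathlib
import Pool.Agent.Lib.MP_ae5b4e_an_ROT.Fin

/-!
# MP_ae5b4e_an, curves with a rotational symmetry: the geometric form of the hypotheses
-/

noncomputable section

namespace Pool.Agent.MP_ae5b4e_an_ROT

open Set Filter Topology Real
open scoped ContDiff
open Pool.Agent.MP_ae5b4e_an_FA Pool.Agent.MP_ae5b4e_an_FA.StrictCurve

variable {γ : StrictCurve}

/-- The point of the curve. -/
def point (γ : StrictCurve) (t : ℝ) : Projectivization ℝ (Fin 3 → ℝ) :=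
  Projectivization.mk ℝ ![γ.x t, γ.y t, 1] (γ.avec_ne t)

lemma to_of_rot {a t s : ℝ} (h : rot a (point γ t) = point γ s) : To γ a t s := by
  unfold rot point at h
  rw [Projectivization.map_mk, Projectivization.mk_eq_mk_iff'] at h
  obtain ⟨μ, hμ⟩ := h
  have h2 : μ * 1 = 1 := congrFun hμ 2
  have h0 : μ * γ.x s = cos a * γ.x t - sin a * γ.y t := congrFun hμ 0
  have h1 : μ * γ.y s = sin a * γ.x t + cos a * γ.y t := congrFun hμ 1
  rw [mul_one] at h2
  rw [h2, one_mul] at h0 h1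
  exact ⟨h0, h1⟩

lemma rot_of_to {a t s : ℝ} (h : To γ a t s) : rot a (point γ t) = point γ s := by
  unfold rot point
  rw [Projectivization.map_mk, Projectivization.mk_eq_mk_iff']
  refine ⟨1, ?_⟩
  rw [one_smul]
  funext i
  fin_cases i
  · exact h.1
  · exact h.2
  · rfl

lemma inv_of_trace {a : ℝ} (h : ∀ P ∈ γ.trace, rot a P ∈ γ.trace) : Inv γ a := by
  intro t
  obtain ⟨s, hs⟩ := h (point γ t) ⟨t, rfl⟩
  exact ⟨s, to_of_rot hs.symm⟩

lemma pt_inj {t u v : ℝ} (h : γ.pt t u = γ.pt t v) : u = v := by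
  unfold pt at h
  rw [Projectivization.mk_eq_mk_iff'] at h
  obtain ⟨a, ha⟩ := h
  have h0 : a * (v * γ.x t + deriv γ.x t) = u * γ.x t + deriv γ.x t := congrFun ha 0
  have h1 : a * (v * γ.y t + deriv γ.y t) = u * γ.y t + deriv γ.y t := congrFun ha 1
  have h2 : a * v = u := congrFun ha 2
  have hV := V_pos (γ := γ) t
  have e0 : (a - 1) * deriv γ.x t = 0 := by linear_combination h0 - γ.x t * h2
  have e1 : (a - 1) * deriv γ.y t = 0 := by linear_combination h1 - γ.y t * h2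
  have e2 : (a - 1) * V γ t = 0 := by
    unfold V
    linear_combination deriv γ.x t * e0 + deriv γ.y t * e1
  rcases mul_eq_zero.1 e2 with e | e
  · have : a = 1 := by linarith
    rw [this, one_mul] at h2
    exact h2.symm
  · exact absurd e hV.ne'

/-- the rotation maps tangent lines to tangent lines -/
lemma rot_pt {a t s μ : ℝ} (hμ : μ ≠ 0) (h : To γ a t s)
    (h1 : deriv γ.x s = μ * (cos a * deriv γ.x t - sin a * deriv γ.y t))
    (h2 : deriv γ.y s = μ * (sin a * deriv γ.x t + cos a * deriv γ.y t)) (u : ℝ) :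
    rot a (γ.pt t u) = γ.pt s (μ * u) := by
  unfold rot pt
  rw [Projectivization.map_mk, Projectivization.mk_eq_mk_iff']
  refine ⟨μ⁻¹, ?_⟩
  funext i
  fin_cases i
  · show μ⁻¹ * (μ * u * γ.x s + deriv γ.x s) =
      cos a * (u * γ.x t + deriv γ.x t) - sin a * (u * γ.y t + deriv γ.y t)
    rw [h1, h.1]
    field_simp
    ring
  · show μ⁻¹ * (μ * u * γ.y s + deriv γ.y s) =
      sin a * (u * γ.x t + deriv γ.x t) + cos a * (u * γ.y t + deriv γ.y t)
    rw [h2, h.2]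
    field_simp
    ring
  · show μ⁻¹ * (μ * u) = u
    field_simp

lemma law_of_geo {a : ℝ} {κ : ℝ → ℝ}
    (h : ∀ t s u v, rot a (point γ t) = point γ s → rot a (γ.pt t u) = γ.pt s v →
      rot a (γ.pt t (κ t - u)) = γ.pt s (κ s - v)) : Law γ κ a := by
  intro t s μ hts h1 h2
  have hμ : μ ≠ 0 := by
    rintro rfl
    have := V_pos (γ := γ) s
    unfold V at this
    rw [h1, h2] at this
    simp at this
  have k1 := rot_pt hμ hts h1 h2 0
  have k2 := h t s 0 (μ * 0) (rot_of_to hts) k1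
  rw [mul_zero, sub_zero, sub_zero, rot_pt hμ hts h1 h2] at k2
  exact (pt_inj k2).symm

/-- the coordinate of a point on two tangent lines -/
lemma eq_v {t s u v' : ℝ} (hN : γ.N t s ≠ 0) (h : γ.pt t u = γ.pt s v') : u = γ.v t s := by
  unfold pt at h
  rw [Projectivization.mk_eq_mk_iff'] at h
  obtain ⟨a, ha⟩ := h
  have h0 : a * (v' * γ.x s + deriv γ.x s) = u * γ.x t + deriv γ.x t := congrFun ha 0
  have h1 : a * (v' * γ.y s + deriv γ.y s) = u * γ.y t + deriv γ.y t := congrFun ha 1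
  have h2 : a * v' = u := congrFun ha 2
  unfold v
  rw [eq_div_iff hN]
  unfold N W
  linear_combination (-deriv γ.x s) * h1 + deriv γ.y s * h0 +
    (deriv γ.x s * γ.y s - deriv γ.y s * γ.x s) * h2

lemma Law.per {a : ℝ} {κ : ℝ → ℝ} (hI : Inv γ a) (hI' : Inv γ (-a)) (hL : Law γ κ a) (t : ℝ)
    (n : ℤ) : κ (t + n * γ.T) = κ t := by
  obtain ⟨s, hs⟩ := hI' t
  have hst : To γ a s t := by
    have h1 : To γ (-a) t s := hs
    unfold To at *
    rw [cos_neg, sin_neg] at h1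
    have hcs : cos a ^ 2 + sin a ^ 2 = 1 := by rw [add_comm]; exact sin_sq_add_cos_sq a
    constructor
    · rw [h1.1, h1.2]
      linear_combination (-γ.x t) * hcs
    · rw [h1.1, h1.2]
      linear_combination (-γ.y t) * hcs
  obtain ⟨μ, -, e1, e2⟩ := tangent hI hst
  have k1 := hL s t μ hst e1 e2
  have k2 := hL s (t + n * γ.T) μ ((To.shift n).2 hst) (by rw [dx_add]; exact e1)
    (by rw [dy_add]; exact e2)
  rw [k1, k2]

/-- **Curves with a rotational symmetry.** -/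
theorem rotational (γ : StrictCurve) {k : ℕ} (hk : 5 ≤ k)
    (hsym : ∀ P ∈ γ.trace, rot (2 * π / k) P ∈ γ.trace) (U : ℝ → ℝ → ℝ) (κ : ℝ → ℝ)
    (hcont : ContinuousOn (fun p : ℝ × ℝ => U p.1 p.2) (Ioo 0 1 ×ˢ univ))
    (hper : ∀ c ∈ Ioo (0:ℝ) 1, ∀ t, U c (t + γ.T) = U c t)
    (hsimple : ∀ c ∈ Ioo (0:ℝ) 1, ∀ t t', γ.pt t (U c t) = γ.pt t' (U c t') →
      ∃ n : ℤ, t' = t + n * γ.T)
    (hmono : ∀ c ∈ Ioo (0:ℝ) 1, ∀ c' ∈ Ioo (0:ℝ) 1, c < c' → ∀ t, U c' t < U c t)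
    (hlim : ∀ t, Tendsto (fun c => U c t) (𝓝[>] 0) atTop)
    (hproj : ∀ c ∈ Ioo (0:ℝ) 1, ∀ t u v, u ≠ v → γ.pt t u ∈ γ.leaf U c →
      γ.pt t v ∈ γ.leaf U c → u + v = κ t)
    (hlaw : ∀ t s u v, rot (2 * π / k) (point γ t) = point γ s →
      rot (2 * π / k) (γ.pt t u) = γ.pt s v →
      rot (2 * π / k) (γ.pt t (κ t - u)) = γ.pt s (κ s - v))
    (hcov : ∀ t s, rot (2 * π / k) (rot (2 * π / k) (point γ t)) = point γ s →
      ∃ c ∈ Ioo (0:ℝ) 1, ∃ v, γ.pt t (U c t) = γ.pt s v) :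
    ∃ r > 0, γ.trace = circle r ∧ ∀ c ∈ Ioo (0:ℝ) 1, ∃ ρ > r, γ.leaf U c = circle ρ := by
  have hI := inv_of_trace hsym
  have hL := law_of_geo hlaw
  have hk0 : (0:ℝ) < k := by
    have : 0 < k := by omega
    exact_mod_cast this
  have hp := pi_pos
  have hka : k * (2 * π / k) = 2 * π := by field_simp
  have hI' : Inv γ (-(2 * π / k)) := by
    have := hI.neg (by omega : 0 < k) hka 1
    rwa [Nat.cast_one, one_mul] at this
  refine main γ hk hI U κ (hL.per hI hI') hL hcont hper hsimple hmono hlim hproj ?_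
  intro t
  have hk5 : (5:ℝ) ≤ k := by exact_mod_cast hk
  have ha0 : 0 < 2 * π / k := by positivity
  have ha1 : 2 * π / k < π / 2 := by
    rw [div_lt_iff₀ hk0]
    nlinarith
  have hs2 : sin (2 * π / k + 2 * π / k) ≠ 0 :=
    (sin_pos_of_pos_of_lt_pi (by linarith) (by linarith)).ne'
  obtain ⟨s, h1, h2, h3⟩ := exists_next hs2 (hI.add hI) t
  obtain ⟨q, hq⟩ := hI t
  obtain ⟨q', hq'⟩ := hI q
  have h4 : rot (2 * π / k) (rot (2 * π / k) (point γ t)) = point γ s := by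
    rw [rot_of_to hq, rot_of_to hq']
    have h5 := hq.comp hq'
    unfold point
    rw [Projectivization.mk_eq_mk_iff']
    refine ⟨1, ?_⟩
    rw [one_smul]
    funext i
    fin_cases i
    · show γ.x s = γ.x q'
      rw [h3.1, h5.1]
    · show γ.y s = γ.y q'
      rw [h3.2, h5.2]
    · rfl
  obtain ⟨c, hc, v', hv⟩ := hcov t s h4
  refine ⟨c, hc, ?_⟩
  rw [eq_v (N_right h1 h2).ne' hv, v_right (hI.add hI) h3]

end Pool.Agent.MP_ae5b4e_an_ROT
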